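import Pool.Agent.Helper9_SDR.Final

/-! # Sub-division rings of `K(y; σ, δ)` meeting `K` outside the constants -/

open Polynomial IntermediateField

/-- Let `K / k` be a finitely generated field extension of transcendence degree one, and let the
division algebra `D` be generated by `K` and an element `y`, not in `K`, with
`y a = σ(a) y + δ(a)` for `a` in `K`, where `σ` has infinite order, or `char k = 0`, `σ = 1` and
`δ ≠ 0`. Then every sub-division ring `D'` of `D` that contains `k` and an element of `K`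
transcendental over `k` is the ring of fractions of a subalgebra `A'` of GK dimension at most `3`
(at most `2` if `σ = 1`). -/
theorem Pool.Agent.Results.MP_87570e_al.OreSubdivision.result :
    ∀ (k : Type) [Field k] (D : Type) [DivisionRing D] [Algebra k D] (K : Type) [Field K]
      [Algebra k K], (⊤ : IntermediateField k K).FG → Algebra.trdeg k K = 1 →
      ∀ (ι : K →ₐ[k] D) (y : D), y ∉ Set.range ι →
      ∀ (σ : K ≃ₐ[k] K) (δ : K → K), (∀ a, y * ι a = ι (σ a) * y + ι (δ a)) →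
        Subfield.closure (Set.range ι ∪ {y}) = ⊤ →
        ((∀ n : ℕ, 0 < n → σ ^ n ≠ 1) ∨ (CharZero k ∧ σ = 1 ∧ δ ≠ 0)) →
      ∀ D' : Subalgebra k D, (∀ x ∈ D', x⁻¹ ∈ D') →
      ∀ u : K, Transcendental k u → ι u ∈ D' →
      ∃ A' : Subalgebra k D, A' ≤ D' ∧
        (∃ d : ℝ, d ≤ 3 ∧ (σ = 1 → d ≤ 2) ∧
          ∀ V : Submodule k D, V ≤ Subalgebra.toSubmodule A' →
            FiniteDimensional k ↥V → (1 : Submodule k D) ≤ V → ∀ ε : ℝ, 0 < ε →
              ∀ᶠ n : ℕ in Filter.atTop,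
                (Module.finrank k ↥(V ^ n) : ℝ) ≤ (n : ℝ) ^ (d + ε)) ∧
        ∀ x ∈ D', ∃ a ∈ A', ∃ s ∈ A', s ≠ 0 ∧ x = a * s⁻¹ := by
  intro k _ D _ _ K _ _ hfg htr ι y hyK σ δ hy hgen hnp D' hD' u hu huD
  obtain ⟨h3, h2⟩ := SDR.final hfg htr ι y hyK σ δ hy hgen hnp D' hD' u hu huD
  by_cases hσ : σ = 1
  · obtain ⟨A', hA, hgk, hfr⟩ := h2 hσ
    exact ⟨A', hA, ⟨2, by norm_num, fun _ => le_rfl, hgk⟩, hfr⟩
  · obtain ⟨A', hA, hgk, hfr⟩ := h3
    exact ⟨A', hA, ⟨3, le_rfl, fun h => absurd h hσ, hgk⟩, hfr⟩
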