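import Pool.Agent.Helper1_Q2N.Final

/-!
# Q2 of MP_87570e_al has a negative answer (`k = ℝ`)

`D` is the quotient division ring of a finitely generated `ℝ`-algebra `A` of GK dimension `2`,
`D' ⊆ D` a sub-division ring that is not the ring of fractions of any subalgebra of GK dimension at
most `2`. The clauses are those of the frozen statement `S02175` (with `d = 2` for `A'`).

`D = K(y; σ)`, `K` the field of elliptic functions for the lattice `ℤ[i]` generated by all
translates of one function, `σ` the translation by `i √2`, and `D'` is the fixed ring of the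
involution `g`, `g y = y⁻¹`, `(g f)(z) = conj (f (conj z))`.
-/

set_option autoImplicit false

namespace Pool.Agent.Results.MP_87570e_al.Q2Negative

/-- `GKdim A ≤ d`: for every finite dimensional subspace `V` of `A` that contains `1` and every
`ε > 0`, `dim V^n ≤ n^(d+ε)` for all large `n`. -/
def GKdimLE (k : Type) {D : Type} [Field k] [DivisionRing D] [Algebra k D] (A : Subalgebra k D)
    (d : ℝ) : Prop :=
  ∀ V : Submodule k D, V ≤ Subalgebra.toSubmodule A → FiniteDimensional k ↥V →
    (1 : Submodule k D) ≤ V → ∀ ε : ℝ, 0 < ε →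
      ∀ᶠ n : ℕ in Filter.atTop, (Module.finrank k ↥(V ^ n) : ℝ) ≤ (n : ℝ) ^ (d + ε)

/-- `GKdim A ≥ 2`: for every `d < 2` there are a finite dimensional subspace `V` of `A` that
contains `1` and an `ε > 0` such that `dim V^n > n^(d+ε)` for infinitely many `n`. -/
def GKdimGE2 (k : Type) {D : Type} [Field k] [DivisionRing D] [Algebra k D]
    (A : Subalgebra k D) : Prop :=
  ∀ d : ℝ, d < 2 → ∃ V : Submodule k D, V ≤ Subalgebra.toSubmodule A ∧
    FiniteDimensional k ↥V ∧ (1 : Submodule k D) ≤ V ∧
    ∃ ε : ℝ, 0 < ε ∧ ∃ᶠ n : ℕ in Filter.atTop,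
      (n : ℝ) ^ (d + ε) < (Module.finrank k ↥(V ^ n) : ℝ)

/-- There are a finitely generated algebra `A` over the field of real numbers of GK dimension
two, with quotient division ring `D` (all elements of `D` are fractions of elements of `A`), and a
sub-division ring `D'` of `D` containing `ℝ`, such that `D'` is not the ring of fractions of any
subalgebra `A' ⊆ D'` of GK dimension at most two. -/
theorem result :
    ∃ (D : Type) (_ : DivisionRing D) (_ : Algebra ℝ D) (A : Subalgebra ℝ D),
      A.FG ∧ GKdimLE ℝ A 2 ∧ GKdimGE2 ℝ A ∧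
      (∀ x : D, ∃ a ∈ A, ∃ s ∈ A, s ≠ 0 ∧ x = a * s⁻¹) ∧
      ∃ D' : Subalgebra ℝ D, (∀ x ∈ D', x⁻¹ ∈ D') ∧
        ¬ ∃ A' : Subalgebra ℝ D, A' ≤ D' ∧ GKdimLE ℝ A' 2 ∧
          ∀ x ∈ D', ∃ a ∈ A', ∃ s ∈ A', s ≠ 0 ∧ x = a * s⁻¹ :=
  Pool.Agent.Q2N.H1.final

end Pool.Agent.Results.MP_87570e_al.Q2Negative
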